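import Pool.Agent.Helper15.RK.GoalsF

/-!
MP_97d78d_ag and MP_5ff3c6_ag, project RK, packet CVT.
-/

set_option autoImplicit false

open Complex Metric Set Filter Topology MeasureTheory
open scoped ContDiff ComplexConjugate ComplexOrder Manifold Matrix

universe u v

namespace Pool.Agent.Helper89.RK

open Pool.Agent.Helper95.Lin Pool.Agent.Helper16.Abund Pool.Agent.Helper92.Orb
  Pool.Agent.Helper10.SP Pool.Agent.Helper95.RK Pool.Agent.Helper15.RK

theorem dvec_eq {n : ℕ} {M : Type*} [TopologicalSpace M] [ChartedSpace (Fin n → ℂ) M]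
    (E : Cn n → M) (z u : Cn n) :
    dvec n E z u = ∑ i, u i • dvec n E z (Pi.single i 1) := by
  have h : u = ∑ i, u i • (Pi.single i (1 : ℂ) : Cn n) := by
    ext j
    simp [Finset.sum_apply, Pi.single_apply]
  have h2 : dvec n E z u = dvec n E z (∑ i, u i • (Pi.single i (1 : ℂ) : Cn n)) := by rw [← h]
  rw [h2]
  unfold dvec
  rw [map_sum]
  refine Finset.sum_congr rfl fun i _ => ?_
  rw [map_smul]

theorem sum3' {ι κ μ : Type*} [Fintype ι] [Fintype κ] [Fintype μ] (F : ι → κ → μ → ℂ) :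
    ∑ m, ∑ l, ∑ i, F m l i = ∑ i, ∑ m, ∑ l, F m l i :=
  (Finset.sum_congr rfl fun _ _ => Finset.sum_comm).trans Finset.sum_comm

theorem herm_left {n : ℕ} (A : Matrix (Fin n) (Fin n) ℂ) (a : Fin n → ℂ)
    (u : Fin n → Fin n → ℂ) (v : Fin n → ℂ) :
    herm A (∑ i, a i • u i) v = ∑ i, a i * herm A (u i) v := by
  unfold herm
  simp only [Finset.sum_apply, Pi.smul_apply, smul_eq_mul, Finset.mul_sum, Finset.sum_mul]
  rw [sum3' (fun p q i => A p q * (a i * u i p) * conj (v q))]
  refine Finset.sum_congr rfl fun i _ => Finset.sum_congr rfl fun p _ =>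
    Finset.sum_congr rfl fun q _ => ?_
  ring

theorem herm_right {n : ℕ} (A : Matrix (Fin n) (Fin n) ℂ) (b : Fin n → ℂ)
    (u : Fin n → ℂ) (v : Fin n → Fin n → ℂ) :
    herm A u (∑ j, b j • v j) = ∑ j, conj (b j) * herm A u (v j) := by
  unfold herm
  simp only [Finset.sum_apply, Pi.smul_apply, smul_eq_mul, map_sum, map_mul, Finset.mul_sum]
  rw [sum3' (fun p q j => A p q * u p * (conj (b j) * conj (v j q)))]
  refine Finset.sum_congr rfl fun i _ => Finset.sum_congr rfl fun p _ =>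
    Finset.sum_congr rfl fun q _ => ?_
  ring

theorem herm_sum {n : ℕ} (A : Matrix (Fin n) (Fin n) ℂ) (a b : Fin n → ℂ)
    (u v : Fin n → Fin n → ℂ) :
    herm A (∑ i, a i • u i) (∑ j, b j • v j) = ∑ i, ∑ j, herm A (u i) (v j) * a i * conj (b j) := by
  rw [herm_left]
  refine Finset.sum_congr rfl fun i _ => ?_
  rw [herm_right, Finset.mul_sum]
  refine Finset.sum_congr rfl fun j _ => ?_
  ring

theorem sqn_eq {n : ℕ} {M : Type*} [TopologicalSpace M] [ChartedSpace (Fin n → ℂ) M]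
    (g : M → Matrix (Fin n) (Fin n) ℂ) (E : Cn n → M) (σ : Cn n → Cn n) :
    sqn n g E σ = sqT (pm n g E) σ := by
  funext z
  unfold sqn sqT hermi pm
  rw [dvec_eq E z (σ z), herm_sum]
  rfl

theorem cvt : S_CVT.{v} := by
  intro n M _ _ g v T E hE
  constructor
  · intro h σ hσ x hx h1 e h2
    have h3 := h T E hE σ hσ.differentiableOn x hx h1 e h2
    rw [sqn_eq] at h3
    exact h3
  · intro h σ hσ x hx h1
    have h3 := h T E hE σ hσ.differentiableOn x hx h1
    rw [sqn_eq] at h3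
    exact h3

end Pool.Agent.Helper89.RK
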