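import Pool.Agent.Helper15.RK.GoalsF

/-!
MP_97d78d_ag and MP_5ff3c6_ag, project RK, packet EXG.
-/

set_option autoImplicit false

open Complex Metric Set Filter Topology MeasureTheory
open scoped ContDiff ComplexConjugate ComplexOrder Manifold Matrix

namespace Pool.Agent.Helper89.RK

open Pool.Agent.Helper95.Lin Pool.Agent.Helper16.Abund Pool.Agent.Helper92.Orb
  Pool.Agent.Helper10.SP Pool.Agent.Helper95.RK Pool.Agent.Helper15.RK

/-- A derivation at `x` on smooth functions on `W`. -/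
structure Der {n : ℕ} (W : Set (Cn n)) (x : Cn n) (D : (Cn n → ℂ) → ℂ) : Prop where
  mem : x ∈ W
  congr : ∀ f g : Cn n → ℂ, (∀ y ∈ W, f y = g y) → D f = D g
  add : ∀ f g : Cn n → ℂ, ContDiffOn ℝ ∞ f W → ContDiffOn ℝ ∞ g W →
    D (fun y => f y + g y) = D f + D g
  mul : ∀ f g : Cn n → ℂ, ContDiffOn ℝ ∞ f W → ContDiffOn ℝ ∞ g W →
    D (fun y => f y * g y) = f x * D g + g x * D f

section der

variable {n : ℕ} {W : Set (Cn n)} {x : Cn n} {D : (Cn n → ℂ) → ℂ}

theorem Der.zero (h : Der W x D) : D (fun _ => 0) = 0 := by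
  have h1 := h.add (fun _ => 0) (fun _ => 0) contDiffOn_const contDiffOn_const
  simp only [add_zero] at h1
  have h2 : D (fun _ => 0) + D (fun _ => 0) = D (fun _ => 0) + 0 := by rw [add_zero]; exact h1.symm
  exact add_left_cancel h2

theorem Der.neg (h : Der W x D) {f : Cn n → ℂ} (hf : ContDiffOn ℝ ∞ f W) :
    D (fun y => - f y) = - D f := by
  have h1 := h.add f (fun y => - f y) hf hf.neg
  simp only [add_neg_cancel] at h1
  rw [h.zero] at h1
  exact (neg_eq_of_add_eq_zero_right h1.symm).symm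

theorem Der.sub (h : Der W x D) {f g : Cn n → ℂ} (hf : ContDiffOn ℝ ∞ f W)
    (hg : ContDiffOn ℝ ∞ g W) : D (fun y => f y - g y) = D f - D g := by
  have h1 := h.add f (fun y => - g y) hf hg.neg
  rw [h.neg hg, ← sub_eq_add_neg] at h1
  rw [← h1]
  exact h.congr _ _ (fun y _ => sub_eq_add_neg _ _)

theorem Der.sum (h : Der W x D) {ι : Type*} (s : Finset ι) (f : ι → Cn n → ℂ)
    (hf : ∀ i, ContDiffOn ℝ ∞ (f i) W) :
    D (fun y => ∑ i ∈ s, f i y) = ∑ i ∈ s, D (f i) := by
  classical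
  induction s using Finset.induction_on with
  | empty => simp only [Finset.sum_empty]; exact h.zero
  | insert a s ha ih =>
    rw [Finset.sum_insert ha, ← ih]
    rw [← h.add (f a) _ (hf a) (ContDiffOn.sum fun i _ => hf i)]
    exact h.congr _ _ (fun y _ => Finset.sum_insert ha)

theorem Der.mul3 (h : Der W x D) {a b c : Cn n → ℂ} (ha : ContDiffOn ℝ ∞ a W)
    (hb : ContDiffOn ℝ ∞ b W) (hc : ContDiffOn ℝ ∞ c W) :
    D (fun y => a y * b y * c y) = D a * b x * c x + a x * D b * c x + a x * b x * D c := by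
  rw [h.mul (fun y => a y * b y) c (ha.mul hb) hc, h.mul a b ha hb]
  ring

theorem Der.mul4 (h : Der W x D) {a b c d : Cn n → ℂ} (ha : ContDiffOn ℝ ∞ a W)
    (hb : ContDiffOn ℝ ∞ b W) (hc : ContDiffOn ℝ ∞ c W) (hd : ContDiffOn ℝ ∞ d W) :
    D (fun y => a y * b y * c y * d y) = D a * b x * c x * d x + a x * D b * c x * d x +
      a x * b x * D c * d x + a x * b x * c x * D d := by
  rw [h.mul (fun y => a y * b y * c y) d ((ha.mul hb).mul hc) hd, h.mul3 ha hb hc]
  ring

theorem fderiv_congr_open (hO : IsOpen W) (hx : x ∈ W) {f g : Cn n → ℂ}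
    (h : ∀ y ∈ W, f y = g y) : fderiv ℝ f x = fderiv ℝ g x :=
  Filter.EventuallyEq.fderiv_eq (Filter.eventually_of_mem (hO.mem_nhds hx) h)

theorem der_Dv (hWIRT : S_WIRT) (hO : IsOpen W) (hx : x ∈ W) (v : Cn n → Cn n) :
    Der W x (fun f => Dv v f x) where
  mem := hx
  congr f g h := by
    unfold Dv cd
    rw [fderiv_congr_open hO hx h]
  add f g hf hg := by
    have h1 := (hWIRT W hO f g hf hg).2.1
    show Dv v _ x = Dv v f x + Dv v g x
    unfold Dv
    rw [← Finset.sum_add_distrib]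
    refine Finset.sum_congr rfl fun j _ => ?_
    rw [(h1 j x hx).1]
    ring
  mul f g hf hg := by
    have h1 := (hWIRT W hO f g hf hg).2.2.1
    show Dv v _ x = f x * Dv v g x + g x * Dv v f x
    unfold Dv
    rw [Finset.mul_sum, Finset.mul_sum, ← Finset.sum_add_distrib]
    refine Finset.sum_congr rfl fun j _ => ?_
    rw [(h1 j x hx).1]
    ring

theorem der_Dvb (hWIRT : S_WIRT) (hO : IsOpen W) (hx : x ∈ W) (v : Cn n → Cn n) :
    Der W x (fun f => Dvb v f x) where
  mem := hx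
  congr f g h := by
    unfold Dvb cdb
    rw [fderiv_congr_open hO hx h]
  add f g hf hg := by
    have h1 := (hWIRT W hO f g hf hg).2.1
    show Dvb v _ x = Dvb v f x + Dvb v g x
    unfold Dvb
    rw [← Finset.sum_add_distrib]
    refine Finset.sum_congr rfl fun j _ => ?_
    rw [(h1 j x hx).2]
    ring
  mul f g hf hg := by
    have h1 := (hWIRT W hO f g hf hg).2.2.1
    show Dvb v _ x = f x * Dvb v g x + g x * Dvb v f x
    unfold Dvb
    rw [Finset.mul_sum, Finset.mul_sum, ← Finset.sum_add_distrib]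
    refine Finset.sum_congr rfl fun j _ => ?_
    rw [(h1 j x hx).2]
    ring

theorem Dv_conj (hWIRT : S_WIRT) (hO : IsOpen W) (hx : x ∈ W) (v : Cn n → Cn n) {f : Cn n → ℂ}
    (hf : ContDiffOn ℝ ∞ f W) : Dv v (fun y => conj (f y)) x = conj (Dvb v f x) := by
  unfold Dv Dvb
  rw [map_sum]
  refine Finset.sum_congr rfl fun j _ => ?_
  rw [((hWIRT W hO f f hf hf).2.2.2.1 j x hx).1, map_mul, Complex.conj_conj]

theorem Dvb_conj (hWIRT : S_WIRT) (hO : IsOpen W) (hx : x ∈ W) (v : Cn n → Cn n) {f : Cn n → ℂ}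
    (hf : ContDiffOn ℝ ∞ f W) : Dvb v (fun y => conj (f y)) x = conj (Dv v f x) := by
  unfold Dv Dvb
  rw [map_sum]
  refine Finset.sum_congr rfl fun j _ => ?_
  rw [((hWIRT W hO f f hf hf).2.2.2.1 j x hx).2, map_mul]

end der

theorem sum3 {ι κ μ : Type*} [Fintype ι] [Fintype κ] [Fintype μ] (F : ι → κ → μ → ℂ) :
    ∑ m, ∑ l, ∑ i, F m l i = ∑ i, ∑ m, ∑ l, F m l i :=
  (Finset.sum_congr rfl fun _ _ => Finset.sum_comm).trans Finset.sum_comm

theorem exg (hWIRT : S_WIRT) (hDERK : S_DERK) : S_EXG := by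
  intro b k Φ W L w v hK g hg x₀ hx₀ α γ
  have hO := hK.isOpen
  have sv : ∀ β j, ContDiffOn ℝ ∞ (fun y => v β y j) W := fun β j =>
    contDiffOn_pi.mp (hK.smv β) j
  have sc : ∀ β j, ContDiffOn ℝ ∞ (fun y => conj (v β y j)) W := fun β j =>
    Complex.conjCLE.contDiff.comp_contDiffOn (sv β j)
  -- derivatives of the Gram matrix
  have hgr : ∀ x ∈ W, ∀ α γ δ, Dv (v α) (fun y => gram g v y γ δ) x =
      (∑ i, ∑ j, Dv (v α) (fun y => g y i j) x * v γ x i * conj (v δ x j)) +
      ∑ i, ∑ j, g x i j * Dv (v α) (fun y => v γ y i) x * conj (v δ x j) := by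
    intro x hx α γ δ
    have hD := der_Dv hWIRT hO hx (v α)
    have h0 : ∀ j, Dv (v α) (fun y => conj (v δ y j)) x = 0 := by
      intro j
      rw [Dv_conj hWIRT hO hx (v α) (sv δ j), (hDERK hK x hx).2.1 δ α j, map_zero]
    have h1 : Dv (v α) (fun y => gram g v y γ δ) x =
        Dv (v α) (fun y => ∑ i, ∑ j, g y i j * v γ y i * conj (v δ y j)) x := rfl
    rw [h1]
    have h2 := hD.sum Finset.univ (fun i y => ∑ j, g y i j * v γ y i * conj (v δ y j))
      (fun i => ContDiffOn.sum fun j _ => ((hg i j).mul (sv γ i)).mul (sc δ j))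
    refine h2.trans ?_
    rw [← Finset.sum_add_distrib]
    refine Finset.sum_congr rfl fun i _ => ?_
    have h3 := hD.sum Finset.univ (fun j y => g y i j * v γ y i * conj (v δ y j))
      (fun j => ((hg i j).mul (sv γ i)).mul (sc δ j))
    refine h3.trans ?_
    rw [← Finset.sum_add_distrib]
    refine Finset.sum_congr rfl fun j _ => ?_
    have h4 := hD.mul3 (hg i j) (sv γ i) (sc δ j)
    refine h4.trans ?_
    have h5 := h0 j
    change Dv (v α) (fun y => g y i j) x * v γ x i * conj (v δ x j) +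
      g x i j * Dv (v α) (fun y => v γ y i) x * conj (v δ x j) +
      g x i j * v γ x i * Dv (v α) (fun y => conj (v δ y j)) x = _
    rw [h5, mul_zero, add_zero]
  have part1 : ∀ x ∈ W, ∀ δ, TRN g v x α γ δ = ∑ i, ∑ m, ∑ l, v α x i * v γ x m * conj (v δ x l) *
      (cd i (fun y => g y m l) x - cd m (fun y => g y i l) x) := by
    intro x hx δ
    unfold TRN
    rw [hgr x hx α γ δ, hgr x hx γ α δ]
    have h1 : ∑ i, ∑ j, g x i j * Dv (v α) (fun y => v γ y i) x * conj (v δ x j) =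
        ∑ i, ∑ j, g x i j * Dv (v γ) (fun y => v α y i) x * conj (v δ x j) := by
      refine Finset.sum_congr rfl fun i _ => Finset.sum_congr rfl fun j _ => ?_
      rw [(hDERK hK x hx).2.2.1 α γ i]
    rw [h1, add_sub_add_right_eq_sub]
    have h2 : ∑ i, ∑ j, Dv (v α) (fun y => g y i j) x * v γ x i * conj (v δ x j) =
        ∑ i, ∑ m, ∑ l, v α x i * v γ x m * conj (v δ x l) * cd i (fun y => g y m l) x := by
      rw [← sum3 (fun m l i => v α x i * v γ x m * conj (v δ x l) * cd i (fun y => g y m l) x)]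
      refine Finset.sum_congr rfl fun i _ => Finset.sum_congr rfl fun j _ => ?_
      unfold Dv
      rw [Finset.sum_mul, Finset.sum_mul]
      exact Finset.sum_congr rfl fun m _ => by ring
    have h3 : ∑ i, ∑ j, Dv (v γ) (fun y => g y i j) x * v α x i * conj (v δ x j) =
        ∑ i, ∑ m, ∑ l, v α x i * v γ x m * conj (v δ x l) * cd m (fun y => g y i l) x := by
      refine Finset.sum_congr rfl fun i _ => ?_
      rw [Finset.sum_comm (f := fun m l => v α x i * v γ x m * conj (v δ x l) *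
        cd m (fun y => g y i l) x)]
      refine Finset.sum_congr rfl fun j _ => ?_
      unfold Dv
      rw [Finset.sum_mul, Finset.sum_mul]
      exact Finset.sum_congr rfl fun m _ => by ring
    rw [h2, h3]
    simp only [mul_sub, Finset.sum_sub_distrib]
  refine ⟨part1 x₀ hx₀, ?_⟩
  -- second part
  have sK : ∀ i m l, ContDiffOn ℝ ∞ (fun y => cd i (fun y => g y m l) y -
      cd m (fun y => g y i l) y) W := fun i m l =>
    ((hWIRT W hO _ _ (hg m l) (hg m l)).1 i).1.sub ((hWIRT W hO _ _ (hg i l) (hg i l)).1 m).1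
  have key : ∀ β δ, Dvb (v β) (fun y => TRN g v y α γ δ) x₀ =
      (∑ i, ∑ m, ∑ l, v α x₀ i * v γ x₀ m * conj (Dv (v β) (fun y => v δ y l) x₀) *
        (cd i (fun y => g y m l) x₀ - cd m (fun y => g y i l) x₀)) +
      ∑ i, ∑ j, ∑ m, ∑ l, v α x₀ i * conj (v β x₀ j) * v γ x₀ m * conj (v δ x₀ l) *
        (cd i (cdb j fun y => g y m l) x₀ - cd m (cdb j fun y => g y i l) x₀) := by
    intro β δ
    have hD := der_Dvb hWIRT hO hx₀ (v β)
    have e1 : Dvb (v β) (fun y => TRN g v y α γ δ) x₀ = Dvb (v β) (fun y => ∑ i, ∑ m, ∑ l,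
        v α y i * v γ y m * conj (v δ y l) *
        (cd i (fun y => g y m l) y - cd m (fun y => g y i l) y)) x₀ :=
      hD.congr _ _ (fun y hy => part1 y hy δ)
    rw [e1]
    have s4 : ∀ i m l, ContDiffOn ℝ ∞ (fun y => v α y i * v γ y m * conj (v δ y l) *
        (cd i (fun y => g y m l) y - cd m (fun y => g y i l) y)) W := fun i m l =>
      (((sv α i).mul (sv γ m)).mul (sc δ l)).mul (sK i m l)
    have e2 := hD.sum Finset.univ (fun i y => ∑ m, ∑ l, v α y i * v γ y m * conj (v δ y l) *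
        (cd i (fun y => g y m l) y - cd m (fun y => g y i l) y))
      (fun i => ContDiffOn.sum fun m _ => ContDiffOn.sum fun l _ => s4 i m l)
    refine e2.trans ?_
    rw [← Finset.sum_add_distrib]
    refine Finset.sum_congr rfl fun i _ => ?_
    have e3 := hD.sum Finset.univ (fun m y => ∑ l, v α y i * v γ y m * conj (v δ y l) *
        (cd i (fun y => g y m l) y - cd m (fun y => g y i l) y))
      (fun m => ContDiffOn.sum fun l _ => s4 i m l)
    refine e3.trans ?_
    rw [← sum3 (fun m l j => v α x₀ i * conj (v β x₀ j) * v γ x₀ m * conj (v δ x₀ l) *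
        (cd i (cdb j fun y => g y m l) x₀ - cd m (cdb j fun y => g y i l) x₀))]
    rw [← Finset.sum_add_distrib]
    refine Finset.sum_congr rfl fun m _ => ?_
    have e4 := hD.sum Finset.univ (fun l y => v α y i * v γ y m * conj (v δ y l) *
        (cd i (fun y => g y m l) y - cd m (fun y => g y i l) y))
      (fun l => s4 i m l)
    refine e4.trans ?_
    rw [← Finset.sum_add_distrib]
    refine Finset.sum_congr rfl fun l _ => ?_
    have e5 := hD.mul4 (sv α i) (sv γ m) (sc δ l) (sK i m l)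
    refine e5.trans ?_
    have e6 : Dvb (v β) (fun y => v α y i) x₀ = 0 := (hDERK hK x₀ hx₀).2.1 α β i
    have e7 : Dvb (v β) (fun y => v γ y m) x₀ = 0 := (hDERK hK x₀ hx₀).2.1 γ β m
    have e8 : Dvb (v β) (fun y => conj (v δ y l)) x₀ = conj (Dv (v β) (fun y => v δ y l) x₀) :=
      Dvb_conj hWIRT hO hx₀ (v β) (sv δ l)
    have e9 : Dvb (v β) (fun y => cd i (fun y => g y m l) y - cd m (fun y => g y i l) y) x₀ =
        ∑ j, conj (v β x₀ j) * (cd i (cdb j fun y => g y m l) x₀ -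
          cd m (cdb j fun y => g y i l) x₀) := by
      have f1 := hD.sub ((hWIRT W hO _ _ (hg m l) (hg m l)).1 i).1
        ((hWIRT W hO _ _ (hg i l) (hg i l)).1 m).1
      refine f1.trans ?_
      unfold Dvb
      rw [← Finset.sum_sub_distrib]
      refine Finset.sum_congr rfl fun j _ => ?_
      have f2 := ((hWIRT W hO _ _ (hg m l) (hg m l)).2.2.2.2.1 i j x₀ hx₀).2.2
      have f3 := ((hWIRT W hO _ _ (hg i l) (hg i l)).2.2.2.2.1 m j x₀ hx₀).2.2
      rw [f2, f3]
      ring
    change Dvb (v β) (fun y => v α y i) x₀ * v γ x₀ m * conj (v δ x₀ l) *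
        (cd i (fun y => g y m l) x₀ - cd m (fun y => g y i l) x₀) +
      v α x₀ i * Dvb (v β) (fun y => v γ y m) x₀ * conj (v δ x₀ l) *
        (cd i (fun y => g y m l) x₀ - cd m (fun y => g y i l) x₀) +
      v α x₀ i * v γ x₀ m * Dvb (v β) (fun y => conj (v δ y l)) x₀ *
        (cd i (fun y => g y m l) x₀ - cd m (fun y => g y i l) x₀) +
      v α x₀ i * v γ x₀ m * conj (v δ x₀ l) *
        Dvb (v β) (fun y => cd i (fun y => g y m l) y - cd m (fun y => g y i l) y) x₀ = _
    rw [e6, e7, e8, e9, Finset.mul_sum]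
    have e10 : ∀ j, v α x₀ i * v γ x₀ m * conj (v δ x₀ l) * (conj (v β x₀ j) *
        (cd i (cdb j fun y => g y m l) x₀ - cd m (cdb j fun y => g y i l) x₀)) =
        v α x₀ i * conj (v β x₀ j) * v γ x₀ m * conj (v δ x₀ l) *
        (cd i (cdb j fun y => g y m l) x₀ - cd m (cdb j fun y => g y i l) x₀) := fun j => by ring
    rw [Finset.sum_congr rfl fun j _ => e10 j]
    ring
  intro β δ
  rw [key β δ, key δ β]
  have h1 : ∑ i, ∑ m, ∑ l, v α x₀ i * v γ x₀ m * conj (Dv (v β) (fun y => v δ y l) x₀) *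
        (cd i (fun y => g y m l) x₀ - cd m (fun y => g y i l) x₀) =
      ∑ i, ∑ m, ∑ l, v α x₀ i * v γ x₀ m * conj (Dv (v δ) (fun y => v β y l) x₀) *
        (cd i (fun y => g y m l) x₀ - cd m (fun y => g y i l) x₀) := by
    refine Finset.sum_congr rfl fun i _ => Finset.sum_congr rfl fun m _ =>
      Finset.sum_congr rfl fun l _ => ?_
    rw [(hDERK hK x₀ hx₀).2.2.1 β δ l]
  rw [h1, add_sub_add_left_eq_sub]
  have h2 : ∑ i, ∑ j, ∑ m, ∑ l, v α x₀ i * conj (v δ x₀ j) * v γ x₀ m * conj (v β x₀ l) *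
        (cd i (cdb j fun y => g y m l) x₀ - cd m (cdb j fun y => g y i l) x₀) =
      ∑ i, ∑ j, ∑ m, ∑ l, v α x₀ i * conj (v β x₀ j) * v γ x₀ m * conj (v δ x₀ l) *
        (cd i (cdb l fun y => g y m j) x₀ - cd m (cdb l fun y => g y i j) x₀) := by
    refine Finset.sum_congr rfl fun i _ => ?_
    have g1 := sum3 (fun m l j => v α x₀ i * conj (v δ x₀ j) * v γ x₀ m * conj (v β x₀ l) *
        (cd i (cdb j fun y => g y m l) x₀ - cd m (cdb j fun y => g y i l) x₀))
    rw [← g1]
    rw [Finset.sum_comm]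
    refine Finset.sum_congr rfl fun l _ => Finset.sum_congr rfl fun m _ =>
      Finset.sum_congr rfl fun j _ => ?_
    ring
  rw [h2]
  simp only [← Finset.sum_sub_distrib]
  refine Finset.sum_congr rfl fun i _ => Finset.sum_congr rfl fun j _ =>
    Finset.sum_congr rfl fun m _ => Finset.sum_congr rfl fun l _ => ?_
  ring

end Pool.Agent.Helper89.RK
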