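import Pool.Agent.Helper36.RK.GoalsP

/-!
MP_97d78d_ag and MP_5ff3c6_ag, project RK, packet IMB.
-/

set_option autoImplicit false

open Complex Metric Set Filter Topology MeasureTheory Matrix
open scoped ContDiff ComplexConjugate ComplexOrder Manifold

namespace Pool.Agent.Helper89.RK

open Pool.Agent.Helper95.Lin Pool.Agent.Helper10.SP Pool.Agent.Helper95.RK
open Pool.Agent.Helper36.RK

theorem cj_mul {l m n : Type*} [Fintype m] (A : Matrix l m ℂ) (B : Matrix m n ℂ) :
    cj (A * B) = cj A * cj B := Matrix.map_mul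

theorem cj_toC {m n : Type*} (A : Matrix m n ℝ) : cj (toC A) = toC A := by
  ext i j
  exact Complex.conj_ofReal _

theorem cj_cj {m n : Type*} (A : Matrix m n ℂ) : cj (cj A) = A := by
  ext i j
  exact Complex.conj_conj _

theorem cj_tr {m n : Type*} (A : Matrix m n ℂ) : cj A.transpose = (cj A).transpose := rfl

theorem cj_neg {m n : Type*} (A : Matrix m n ℂ) : cj (-A) = - cj A := by
  ext i j
  exact map_neg (starRingEnd ℂ) (A i j)

theorem conj_trace {n : Type*} [Fintype n] (A : Matrix n n ℂ) :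
    conj A.trace = (cj A).trace := by
  unfold Matrix.trace
  rw [map_sum]
  rfl

theorem toC_mul {l m n : Type*} [Fintype m] (A : Matrix l m ℝ) (B : Matrix m n ℝ) :
    toC (A * B) = toC A * toC B := by
  exact Matrix.map_mul (f := Complex.ofRealHom) (L := A) (M := B)

theorem toC_one {n : Type*} [DecidableEq n] : toC (1 : Matrix n n ℝ) = 1 := by
  ext i j
  simp only [toC, Matrix.map_apply, Matrix.one_apply]
  split_ifs <;> simp

/-- The trace identity. -/
theorem trace_comm {n : Type*} [Fintype n] [DecidableEq n] (X Y A B : Matrix n n ℂ) (c : ℂ)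
    (hAB : A = B + c • 1) (hXY : X * Y = Y * X) :
    (X * A * (Y * B)).trace = (X * B * (Y * A)).trace := by
  rw [hAB]
  simp only [mul_add, add_mul, Matrix.mul_smul, Matrix.smul_mul, mul_one,
    Matrix.trace_add, Matrix.trace_smul]
  congr 2
  have h1 : X * B * Y = X * (B * Y) := mul_assoc _ _ _
  rw [h1, Matrix.trace_mul_comm X (B * Y), mul_assoc, ← hXY, Matrix.trace_mul_comm B (X * Y),
    mul_assoc]

theorem imb (hALGP : S_ALGP) : S_IMB := by
  intro b k D lam Om hPol V W ξ η hξ hη hcomm z hz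
  obtain ⟨L, hL⟩ : ∃ L, L = Lm lam z := ⟨_, rfl⟩
  have hPM : PolM L Om := by rw [hL]; exact hPol.pol z hz
  obtain ⟨hdet, h2, -, -, hpos, -, -⟩ := hALGP L Om hPM
  obtain ⟨H, hH⟩ : ∃ H, H = (hiM L Om)⁻¹ := ⟨_, rfl⟩
  have hs1 : sV lam Om z (V z) = - (L * toC ξ * toC Om * L.transpose) := by
    rw [hL]; exact hξ.2 z hz
  have hs2 : sV lam Om z (W z) = - (L * toC η * toC Om * L.transpose) := by
    rw [hL]; exact hη.2 z hz
  have hHb : Hb lam Om z = H := by rw [hH, hL]; rfl
  have hHc : cj H = H.transpose := by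
    have h3 : H.conjTranspose = H := by rw [hH]; exact hpos.1
    have h4 : (cj H).transpose = H := h3
    rw [← h4]
    rw [Matrix.transpose_transpose, h4]
  rw [← hH] at h2
  obtain ⟨P, hP⟩ : ∃ P, P = L.transpose * H * cj L := ⟨_, rfl⟩
  have hPt : P.transpose = (cj L).transpose * H.transpose * L := by
    rw [hP, Matrix.transpose_mul, Matrix.transpose_mul, Matrix.transpose_transpose,
      Matrix.mul_assoc]
  have hPc : cj P = P.transpose := by
    rw [hPt, hP, cj_mul, cj_mul, cj_cj, hHc, cj_tr]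
  have hPct : cj P.transpose = P := by rw [← hPc, cj_cj]
  rw [← hP, ← hPt] at h2
  obtain ⟨X, hX⟩ : ∃ X, X = toC ξ := ⟨_, rfl⟩
  obtain ⟨Y, hY⟩ : ∃ Y, Y = toC η := ⟨_, rfl⟩
  obtain ⟨M, hM⟩ : ∃ M, M = toC Om := ⟨_, rfl⟩
  have hXc : cj X = X := by rw [hX]; exact cj_toC _
  have hYc : cj Y = Y := by rw [hY]; exact cj_toC _
  have hMc : cj M = M := by rw [hM]; exact cj_toC _
  have hXY : X * Y = Y * X := by rw [hX, hY, ← toC_mul, ← toC_mul, hcomm]
  have hME : M * P = M * P.transpose + (2 * I : ℂ) • (1 : Matrix (Fin (2 * k)) (Fin (2 * k)) ℂ) := by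
    have h3 : M * toC Om⁻¹ = 1 := by
      rw [hM, ← toC_mul, Matrix.mul_nonsing_inv _ (Ne.isUnit hdet), toC_one]
    rw [h2, Matrix.mul_smul, mul_sub] at h3
    have h4 : (2 * I : ℂ) ≠ 0 := by simp
    have h5 : M * P - M * P.transpose = (2 * I : ℂ) • (1 : Matrix (Fin (2 * k)) (Fin (2 * k)) ℂ) := by
      rw [← h3, smul_smul, mul_one_div_cancel h4, one_smul]
    rw [← h5]
    abel
  have hbt : bt lam Om z (V z) (W z) = (X * (M * P) * (Y * (M * P.transpose))).trace := by
    unfold bt hs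
    rw [hs1, hs2, hHb, cj_neg, cj_mul, cj_mul, cj_mul, ← hX, ← hY, ← hM, hYc, hMc, cj_tr]
    rw [hPt, hP]
    have h3 : -(L * X * M * L.transpose) * H * -(cj L * Y * M * (cj L).transpose) * H.transpose =
        L * (X * (M * (L.transpose * H * cj L)) * (Y * (M * ((cj L).transpose * H.transpose)))) := by
      simp only [Matrix.neg_mul, Matrix.mul_neg, neg_neg, Matrix.mul_assoc]
    rw [h3, Matrix.trace_mul_comm]
    congr 1
    simp only [Matrix.mul_assoc]
  have hcc : conj (bt lam Om z (V z) (W z)) = bt lam Om z (V z) (W z) := by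
    rw [hbt, conj_trace]
    simp only [cj_mul, hXc, hYc, hMc, hPc, hPct]
    exact (trace_comm X Y (M * P) (M * P.transpose) (2 * I) hME hXY).symm
  exact Complex.conj_eq_iff_im.1 hcc

end Pool.Agent.Helper89.RK
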