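import Pool.Agent.Helper95.RK.GoalsB
import Pool.Agent.Helper95.RK.Basics
import Pool.Agent.Helper27.SP.LMAP
import Pool.Agent.Helper83.SP.FINSP

/-!
MP_97d78d_ag and MP_5ff3c6_ag, project RK, packet FINF.
-/

set_option autoImplicit false

open Complex Metric Set Filter Topology MeasureTheory
open scoped ContDiff ComplexConjugate ComplexOrder Manifold Matrix

universe u v

namespace Pool.Agent.Helper89.RK

open Pool.Agent.Helper95.Lin Pool.Agent.Helper16.Abund Pool.Agent.Helper92.Orb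
  Pool.Agent.Helper10.SP Pool.Agent.Helper95.RK
open Pool.Agent.Helper27.SP (par_local lpot_congr lev_congr lev_shift)
open Pool.Agent.Helper83.SP (scl scl_apply scl_det lev_add_const)

theorem hess_scale {n : ℕ} (f : Cn n → ℝ) (s : ℝ) (x u w : Cn n) :
    hess (fun y => f (s • y)) x u w = s * (s * hess f (s • x) u w) := by
  unfold hess
  have h1 : (fun y => fderiv ℝ (fun y => f (s • y)) y w) =
      s • (fun y => (fun z => fderiv ℝ f z w) (s • y)) := by
    funext y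
    rw [fderiv_comp_smul]
    rfl
  rw [h1, fderiv_const_smul_field]
  have h2 := fderiv_comp_smul (𝕜 := ℝ) (f := fun z => fderiv ℝ f z w) (x := x) s
  rw [Pi.smul_apply, h2]
  rfl

theorem lev_scale {n : ℕ} (f : Cn n → ℝ) (s : ℝ) (x e : Cn n) :
    lev (fun y => f (s • y)) x e = s ^ 2 * lev f (s • x) e := by
  unfold lev
  rw [hess_scale, hess_scale]
  ring

/-- Rescaled foliation charts. -/
theorem fol_scale (hPARBK : S_PARBK.{u, v}) {b k : ℕ} {G : Type u} {M : Type v} [Group G]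
    [MulAction G M] [TopologicalSpace M] [T2Space M] [ChartedSpace (Fin (b + k) → ℂ) M]
    [IsManifold 𝓘(ℂ, Fin (b + k) → ℂ) ω M] {h : M → Matrix (Fin (b + k)) (Fin (b + k)) ℂ}
    {v : M → ℝ} (D : DataK b k G M h v) {r : ℝ} (hr : 0 < r) {ψ : Cn (b + k) → M}
    (hψ : FolPar v (ball (0 : Cn b) r) (ball (0 : Cn k) r) ψ) :
    FolPar v (ball (0 : Cn b) 6) (ball (0 : Cn k) 6) (ψ ∘ scl (b + k) (r / 6)) := by
  have hs : 0 < r / 6 := by positivity
  have hsc : ∀ x : Cn (b + k), scl (b + k) (r / 6) x = (r / 6) • x := by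
    intro x
    rw [scl_apply]
    exact Complex.coe_smul _ _
  have hm : ∀ {m : ℕ} (z : Cn m), z ∈ ball (0 : Cn m) 6 →
      ((r / 6 : ℝ) : ℂ) • z ∈ ball (0 : Cn m) r := by
    intro m z hz
    rw [mem_ball_zero_iff] at hz ⊢
    rw [norm_smul, Complex.norm_real, Real.norm_eq_abs, abs_of_pos hs]
    nlinarith
  have hV' : IsOpen (prodK (ball (0 : Cn b) 6) (ball (0 : Cn k) 6)) :=
    isOpen_prodK isOpen_ball isOpen_ball
  have hmV : MapsTo (scl (b + k) (r / 6)) (prodK (ball (0 : Cn b) 6) (ball (0 : Cn k) 6))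
      (prodK (ball (0 : Cn b) r) (ball (0 : Cn k) r)) := by
    intro x hx
    exact ⟨hm _ hx.1, hm _ hx.2⟩
  have hfd : ∀ x, fderiv ℂ (scl (b + k) (r / 6)) x = scl (b + k) (r / 6) := fun x =>
    (scl (b + k) (r / 6)).fderiv
  obtain ⟨hp1, hp2⟩ := (hPARBK D).1 _ (prodK (ball (0 : Cn b) 6) (ball (0 : Cn k) 6)) ψ
    (scl (b + k) (r / 6)) hψ.1 hV' (scl (b + k) (r / 6)).differentiable.differentiableOn hmV
    (fun x _ => by rw [hfd x]; exact scl_det _ _ hs)
  refine ⟨hp1, fun x hx e => ?_⟩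
  have h1 : lpot (b + k) v (ψ ∘ scl (b + k) (r / 6)) =ᶠ[𝓝 x]
      fun y => (fun y => lpot (b + k) v ψ ((r / 6) • y)) y +
        Real.log (‖(scl (b + k) (r / 6)).det‖ ^ 2) := by
    filter_upwards [hV'.mem_nhds hx] with y hy
    rw [(hp2 y hy).2, hfd y, hsc]
  rw [lev_congr h1, lev_add_const, lev_scale, ← hsc, mul_eq_zero, hψ.2 _ (hmV hx) e]
  have h2 : (r / 6) ^ 2 ≠ 0 := by positivity
  simp [h2]

/-- Translated foliation charts. -/
theorem fol_shift (hPARBK : S_PARBK.{u, v}) {b k : ℕ} {G : Type u} {M : Type v} [Group G]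
    [MulAction G M] [TopologicalSpace M] [T2Space M] [ChartedSpace (Fin (b + k) → ℂ) M]
    [IsManifold 𝓘(ℂ, Fin (b + k) → ℂ) ω M] {h : M → Matrix (Fin (b + k)) (Fin (b + k)) ℂ}
    {v : M → ℝ} (D : DataK b k G M h v) {ψ : Cn (b + k) → M} (c : Cn b)
    (hψ : FolPar v (ball (0 : Cn b) 6) (ball (0 : Cn k) 6) ψ) :
    FolPar v (ball c 6) (ball (0 : Cn k) 6) (ψ ∘ fun y => y - ptK c 0) := by
  have hop : IsOpen (prodK (ball c 6) (ball (0 : Cn k) 6)) := isOpen_prodK isOpen_ball isOpen_ball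
  have hmaps : MapsTo (fun y : Cn (b + k) => y - ptK c 0) (prodK (ball c 6) (ball (0 : Cn k) 6))
      (prodK (ball (0 : Cn b) 6) (ball (0 : Cn k) 6)) := by
    intro x hx
    refine ⟨?_, ?_⟩
    · rw [base_sub, base_ptK, mem_ball_zero_iff, ← dist_eq_norm]
      exact hx.1
    · rw [fib_sub, fib_ptK, sub_zero]
      exact hx.2
  have hfd : ∀ x : Cn (b + k), fderiv ℂ (fun y : Cn (b + k) => y - ptK c 0) x =
      ContinuousLinearMap.id ℂ _ := by
    intro x
    rw [fderiv_sub_const]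
    exact fderiv_fun_id
  have hdet : ∀ x : Cn (b + k),
      (fderiv ℂ (fun y : Cn (b + k) => y - ptK c 0) x).det = 1 := by
    intro x
    rw [hfd]
    simp [ContinuousLinearMap.det]
  obtain ⟨h1, h2⟩ := (hPARBK D).1 _ (prodK (ball c 6) (ball (0 : Cn k) 6)) ψ
    (fun y : Cn (b + k) => y - ptK c 0) hψ.1 hop
    ((differentiable_id.sub_const _).differentiableOn) hmaps
    (fun x _ => by rw [hdet]; exact one_ne_zero)
  refine ⟨h1, fun x hx e => ?_⟩
  have h3 : lpot (b + k) v (ψ ∘ fun y => y - ptK c 0) =ᶠ[𝓝 x]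
      fun y => lpot (b + k) v ψ (y - ptK c 0) := by
    filter_upwards [hop.mem_nhds hx] with y hy
    rw [(h2 y hy).2, hdet]
    simp
  rw [lev_congr h3, lev_shift]
  exact hψ.2 _ (hmaps hx) e

theorem finf (hPARBK : S_PARBK.{u, v}) : S_FINF.{u, v} := by
  classical
  intro b k G M _ _ _ _ _ _ _ h q v hb D hF
  have hch : ∀ p : M, ∃ ψ : Cn (b + k) → M,
      FolPar v (ball (0 : Cn b) 6) (ball (0 : Cn k) 6) ψ ∧ ψ 0 = p := by
    intro p
    obtain ⟨r, hr, ψ, h1, -, h0⟩ := hF.chart p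
    refine ⟨ψ ∘ scl (b + k) (r / 6), fol_scale hPARBK D hr h1, ?_⟩
    change ψ (scl (b + k) (r / 6) 0) = p
    rw [map_zero, h0]
  choose ψ hS h0 using hch
  obtain ⟨K, hK, hcov⟩ := D.act.cocompact
  have hsub : prodK (ball (0 : Cn b) 1) (ball (0 : Cn k) 1) ⊆
      prodK (ball (0 : Cn b) 6) (ball (0 : Cn k) 6) :=
    fun x hx => ⟨ball_subset_ball (by norm_num) hx.1, ball_subset_ball (by norm_num) hx.2⟩
  have hopen : ∀ p : M, IsOpen (ψ p '' prodK (ball (0 : Cn b) 1) (ball (0 : Cn k) 1)) := fun p =>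
    (hPARBK D).2.2.2.1 _ (ψ p) (hS p).1 _ hsub (isOpen_prodK isOpen_ball isOpen_ball)
  have hmem : ∀ p : M, p ∈ ψ p '' prodK (ball (0 : Cn b) 1) (ball (0 : Cn k) 1) := by
    intro p
    refine ⟨0, ⟨?_, ?_⟩, h0 p⟩
    · rw [base_zero']
      exact mem_ball_self one_pos
    · rw [fib_zero']
      exact mem_ball_self one_pos
  obtain ⟨t, ht⟩ := hK.elim_finite_subcover
    (fun p : M => ψ p '' prodK (ball (0 : Cn b) 1) (ball (0 : Cn k) 1)) hopen
    (fun p _ => mem_iUnion.mpr ⟨p, hmem p⟩)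
  obtain ⟨x₀⟩ := (inferInstance : Nonempty M)
  obtain ⟨γ₀, hγ₀⟩ := hcov x₀
  have hpos : 0 < t.card := by
    obtain ⟨p, hp⟩ := mem_iUnion.mp (ht hγ₀)
    obtain ⟨hpt, -⟩ := mem_iUnion.mp hp
    exact Finset.card_pos.mpr ⟨p, hpt⟩
  -- the centres
  let c : Fin t.card → Cn b := fun i _ => ((100 * (i : ℕ) : ℝ) : ℂ)
  have hne : Nonempty (Fin b) := ⟨⟨0, hb⟩⟩
  have hsep : ∀ i j, i ≠ j → (60 : ℝ) ≤ ‖c i - c j‖ := by
    intro i j hij
    have h1 : ‖(c i - c j) ⟨0, hb⟩‖ ≤ ‖c i - c j‖ := norm_le_pi_norm (c i - c j) ⟨0, hb⟩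
    refine le_trans ?_ h1
    have h2 : (c i - c j) ⟨0, hb⟩ = (((100 * (i : ℕ) : ℝ) - (100 * (j : ℕ) : ℝ) : ℝ) : ℂ) := by
      simp [c]
    rw [h2, Complex.norm_real, Real.norm_eq_abs]
    have h3 : (1 : ℝ) ≤ |((i : ℕ) : ℝ) - ((j : ℕ) : ℝ)| := by
      have h4 : ((i : ℕ) : ℤ) ≠ ((j : ℕ) : ℤ) := by
        intro h5
        apply hij
        exact Fin.ext (by exact_mod_cast h5)
      have h5 : (1 : ℤ) ≤ |((i : ℕ) : ℤ) - ((j : ℕ) : ℤ)| :=
        Int.one_le_abs (sub_ne_zero.2 h4)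
      exact_mod_cast h5
    have h6 : (100 * ((i : ℕ) : ℝ) - 100 * ((j : ℕ) : ℝ)) =
        100 * (((i : ℕ) : ℝ) - ((j : ℕ) : ℝ)) := by ring
    rw [h6, abs_mul, abs_of_pos (by norm_num : (0 : ℝ) < 100)]
    linarith
  have huniq : ∀ (z : Cn b) i j, z ∈ ball (c i) 6 → z ∈ ball (c j) 6 → i = j := by
    intro z i j hi hj
    by_contra hij
    have h1 := hsep i j hij
    rw [mem_ball, dist_eq_norm] at hi hj
    have h2 : c i - c j = (z - c j) - (z - c i) := by abel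
    have h3 : ‖c i - c j‖ ≤ ‖z - c j‖ + ‖z - c i‖ := by
      rw [h2]; exact norm_sub_le _ _
    linarith
  let ix : Cn b → Fin t.card := fun z =>
    if h : ∃ i, z ∈ ball (c i) 6 then h.choose else ⟨0, hpos⟩
  have hix : ∀ (z : Cn b) i, z ∈ ball (c i) 6 → ix z = i := by
    intro z i hz
    have hex : ∃ i, z ∈ ball (c i) 6 := ⟨i, hz⟩
    have h1 : ix z = hex.choose := by
      simp only [ix]
      rw [dif_pos hex]
    rw [h1]
    exact huniq z _ _ hex.choose_spec hz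
  let P : Fin t.card → Cn (b + k) → M := fun i => ψ (t.equivFin.symm i)
  let E : Cn (b + k) → M := fun x => P (ix (base x)) (x - ptK (c (ix (base x))) 0)
  have hEloc : ∀ (x : Cn (b + k)) i, base x ∈ ball (c i) 6 →
      E =ᶠ[𝓝 x] (P i ∘ fun y => y - ptK (c i) 0) := by
    intro x i hx
    have hop : IsOpen (tubeK k (ball (c i) 6)) := isOpen_tubeK isOpen_ball
    filter_upwards [hop.mem_nhds hx] with y hy
    have h1 : ix (base y) = i := hix _ i hy
    simp only [E, h1, Function.comp]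
  have hsh : ∀ i, FolPar v (ball (c i) 6) (ball (0 : Cn k) 6) (P i ∘ fun y => y - ptK (c i) 0) :=
    fun i => fol_shift hPARBK D (c i) (hS _)
  refine ⟨t.card, c, E, hpos, hsep, ⟨?_, ?_⟩, ?_⟩
  · refine par_local (isOpen_prodK (isOpen_iUnion fun i => isOpen_ball) isOpen_ball)
      (fun x hx => ?_)
    obtain ⟨i, hi⟩ := mem_iUnion.1 hx.1
    exact ⟨_, _, (hsh i).1, ⟨hi, hx.2⟩, hEloc x i hi⟩
  · intro x hx e
    obtain ⟨i, hi⟩ := mem_iUnion.1 hx.1
    have h1 : lpot (b + k) v E =ᶠ[𝓝 x] lpot (b + k) v (P i ∘ fun y => y - ptK (c i) 0) := by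
      filter_upwards [(hEloc x i hi).eventuallyEq_nhds] with y hy
      exact lpot_congr v hy
    rw [lev_congr h1]
    exact (hsh i).2 x ⟨hi, hx.2⟩ e
  · intro p
    obtain ⟨γ, hγ⟩ := hcov p
    obtain ⟨q', hq⟩ := mem_iUnion.mp (ht hγ)
    obtain ⟨hqt, x, hx, hxe⟩ := mem_iUnion.mp hq
    obtain ⟨i, hi⟩ : ∃ i, i = t.equivFin ⟨q', hqt⟩ := ⟨_, rfl⟩
    have hz1 : base (x + ptK (c i) 0) ∈ ball (c i) 1 := by
      rw [base_add, base_ptK, mem_ball, dist_eq_norm, add_sub_cancel_right]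
      exact mem_ball_zero_iff.1 hx.1
    refine ⟨γ, x + ptK (c i) 0, ⟨mem_iUnion.2 ⟨i, hz1⟩, ?_⟩, ?_⟩
    · rw [fib_add, fib_ptK, add_zero]
      exact hx.2
    · have h1 := (hEloc (x + ptK (c i) 0) i (ball_subset_ball (by norm_num) hz1)).eq_of_nhds
      rw [h1]
      change γ • p = P i (x + ptK (c i) 0 - ptK (c i) 0)
      rw [add_sub_cancel_right]
      have h2 : P i = ψ q' := by
        simp only [P, hi, Equiv.symm_apply_apply]
      rw [h2]
      exact hxe.symm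

end Pool.Agent.Helper89.RK
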